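import Pool.Agent.N978.HP.MumFamily
import Pool.Agent.N592.HP.SV
import Pool.Agent.N279.HP.DV

/-!
# The Tate conjecture for 100 percent of the members of a family, at every prime, from local monodromy

Let `M i` be finitely many families of polarized pure motives of odd weight `w` with alternating
polarizations over an open subset `U` of the projective line over `ℚ` (`U` is the complement of the
zeros of the binary form `D`; for example summands of the cohomology of the fibres of a smooth
projective family over `U`). The `M i t` are the members at the rational points `t` of `U`, and
`R t` are their `ℓ`-adic realizations of dimension `n i > 0`, for all `ℓ`. Suppose that

* each `M i` has maximally unipotent monodromy (one Jordan block) at some closed point of the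
  projective line, the zeros of the binary form `C i`, and no other `M j` of the same dimension has
  maximally unipotent monodromy there;
* each `M i` of dimension at least 4 has, at another closed point (the zeros of the binary form
  `C' i`), monodromy of infinite order which is not maximally unipotent, for example a
  Picard-Lefschetz transvection; or three of the Frobenius eigenvalues of ONE member are
  multiplicatively independent, at ONE prime number.

So the first two conditions are purely geometric: there is no condition on the motivic Galois groups,
on the images of the Galois representations, on the Hodge numbers, or on any member. They hold, for
example, for the mirror quintic family and the other hypergeometric families of Calabi-Yau threefolds,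
for the families of dimension `n` (even) with a hypergeometric equation of order `n` with a point of
maximally unipotent monodromy and symplectic group (the other singular point is a transvection), and
for most families of Calabi-Yau threefolds with one parameter in the known tables.

Theorem. For 100 percent of the rational points `t` of the projective line, ordered by height, and for
EVERY prime number `ℓ`: the sum of the `ℓ`-adic realizations of the `M i t` is a semisimple
representation of the Galois group of `ℚ` and of all its subgroups of finite index, and all
homomorphisms `V ^ {⊗ s} (c) → V ^ {⊗ t} (d)` which commute with such a subgroup are linear combinations
of products of the polarizations of the `M i t`: so they come from algebraic correspondences, if this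
is true for the polarizations (the Tate conjecture for all products of powers of the `M i t`).

It holds for a member `t` and a prime `ℓ` as soon as the integers `C i (t)` and `C' i (t)` have a prime
divisor which does not divide `m ℓ` (theorem `SymplecticFamily.explicit`); for the mirror quintic
family, with cusps `0` and `1`, this concerns the numerator `a` of `t = a / b` and `a - b`.

For a fixed prime `ℓ` it is known that the image of the `ℓ`-adic representation of the member is open in
the image of the fundamental group of `U` for `t` outside of a thin (Serre, Terasoma) or finite
(Cadoret, Tamagawa) set, which depends on `ℓ`; the new point is that almost all members are good for
all prime numbers `ℓ` at the same time, and that local information at two cusps is sufficient.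

The proof: for 100 percent of the points `t` there are, by a sieve (`Pool.Agent.N592.HP`, helper592;
`Pool.Agent.N279.HP`, helper279), at least two prime numbers `p` such that the reduction of `t` modulo
`p` is a zero of `C i`, and also of `C' i` (the primes modulo which a form has a zero have positive
density, by Chebotarev's theorem); for each `ℓ` one of them is different from `ℓ`. There the
inertia group acts by the local monodromy of the cusp. The irreducibility of the `M i t` at `ℓ` is in
the library `Pool.Agent.Y114.MU` (`ℓ`-adic six exponentials theorem, weights). The Lie algebra of the
endomorphisms which kill the Tate tensors contains a principal triple; if it is spanned by it, all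
its nonzero nilpotent elements have only one Jordan block, which is excluded by the second cusp.
The case of three independent eigenvalues uses that nearby Frobenius elements have independent
eigenvalues, too (library `Pool.Agent.R931.IR`), and the theorem of `Pool.Agent.N144.MS` (helper144).
-/

set_option autoImplicit false

namespace Pool.Agent.Results.MP_3703a7_ag.FamiliesLocalMonodromy

open Polynomial Pool.Agent.Y114.TF Pool.Agent.Y114.MU Pool.Agent.N978.HP

theorem result {ι : Type} [Fintype ι] [DecidableEq ι] {n : ι → ℕ} (hn : ∀ i, 0 < n i)
    -- the realizations of the members of the families
    (R : Pt → Realizations n Gal(AlgebraicClosure ℚ/ℚ)) (w m c : ℕ)
    (D : MvPolynomial (Fin 2) ℤ) (P : ℕ → Pt → ι → ℚ[X]) (h : SymplecticFamily R w m c D P)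
    -- a cusp with maximally unipotent monodromy for each of the families
    (C C' : ι → MvPolynomial (Fin 2) ℤ) (hC : ∀ i, MaxUnipotentCusp R m D (C i) i)
    -- another cusp with infinite monodromy, or one member with three independent eigenvalues
    (hC' : ∀ i, 4 ≤ n i → SmallCusp R m D (C' i) i ∨
      ∃ t p, GoodAt m D t p ∧ ThreeIndependent (P p t i)) :
    AlmostAll fun t => InU D t ∧ ∀ ℓ : ℕ, ℓ.Prime → (R t).TateAt ℓ :=
  h.tate Pool.Agent.N592.HP.t_SV Pool.Agent.N279.HP.t_DV Pool.Agent.N592.HP.t_AA hn C C' hC hC'

end Pool.Agent.Results.MP_3703a7_ag.FamiliesLocalMonodromy
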