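import Pool.Agent.N536.OP.Words

/-!
# The Tate conjecture for tensor categories of motives, from degree four at one prime number

Let `M i`, for `i` in a finite set, be motives over a number field `K`, of weight `w i` and rank `N i`,
with a form `J i` given by a polarization, a rational matrix: the form is alternating, or it is
symmetric (then `M i` is twisted to weight `0`) and the rank is odd and at least `5` or even and at
least `8`. For all prime numbers `ℓ` let `V i ℓ = ℚ_ℓ ^ N i` be the `ℓ`-adic realizations, with the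
action `ρ i ℓ` of the absolute Galois group of `K`. By the comparison with the Betti realization the
form on `V i ℓ` has the same rational matrix `J i` for all `ℓ`. The group acts by similitudes, with the
factor `κ ℓ ^ w i` where `κ ℓ` is the inverse of the cyclotomic character, and outside of a finite set
`S` of places the geometric Frobenius elements have characteristic polynomials `P i v` in `ℚ[X]` which
do not depend on `ℓ` (structure `IsSystem`).

A tensor word is a product `M (a 0) ⊗ ... ⊗ M (a (k - 1))`. A multilinear form `T` on the realization of a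
tensor word of weight `2 j` is a Tate class (`IsTate`) if an open subgroup of the Galois group
multiplies it by `κ ℓ ^ j`. Let `𝔤` be the product of the Lie algebras of the forms `J i` (the symplectic
and orthogonal Lie algebras), over `ℚ`; it contains the Lie algebra of the Hodge group of the motives.
A multilinear form with RATIONAL coefficients which is killed by `𝔤` (`IsRationalInvariant`) is a
Hodge class; by the invariant theory of the classical groups these forms are generated by the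
polarizations `J i`, and the determinants for symmetric `J i`. These classes do not depend on `ℓ`.
The Tate conjecture for the tensor words at `ℓ` is the statement `TateAt`: for all tensor words
of all lengths the Tate classes are exactly the linear combinations, with `ℓ`-adic coefficients, of the
rational invariants. So it is the Tate conjecture for all `Hom (M, M')`, `M` and `M'` in the tensor
category generated by the `M i`.

**Theorem.** Let `ℓ₀` be ONE prime number with

* `ℓ₀ ≠ 2` if there are alternating forms, `ℓ₀` does not divide `N i - 1` if `J i` is symmetric and `N i`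
  is odd, and `ℓ₀` does not divide `(N i - 2) (N i - 4)` and the `ℓ₀`-adic valuation of `det J i` is even if
  `J i` is symmetric and `N i` is even (`IsSuitable`; almost all prime numbers are suitable);
* the Tate conjecture holds at `ℓ₀` for the words `M i ⊗ M i ⊗ M j ⊗ M j`, in the sense that all Tate
  classes are combinations of the rational invariants (this is the Tate conjecture for the Hom
  between `M i ⊗ M i` and `M j ⊗ M j`);
* `End (V i ℓ₀)` is a semisimple representation, and for every `i` there is a place `v ∉ S`, not above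
  `ℓ₀`, such that no power of the Frobenius element is a scalar.

Then:

(a) the Tate conjecture holds for ALL tensor words at `ℓ`, for all prime numbers `ℓ` outside of a set of
natural density zero;

(b) for EVERY prime number `ℓ` the Tate conjecture for all tensor words at `ℓ` is equivalent to the Tate
conjecture for the words `M i ⊗ M i` (that is, for the endomorphisms of the `M i`), provided that the
representations `V i ℓ` are semisimple, or else that `K` is the field of rational numbers, the motives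
are pure, and sufficiently high powers of `N v` times the Frobenius eigenvalues are integral (this holds
for all direct factors of the cohomology of smooth projective varieties, by Deligne). So over the
rational numbers no semisimplicity is needed.

Nothing is assumed about the representations at the other prime numbers: no semisimplicity, no
irreducibility, no Hodge-Tate weights, and nothing about the Galois groups of the Frobenius
polynomials.

Idea of the proof. (a), and (b) in the semisimple case: the theorem `final_mt` of `Pool.Agent.R932.PO`, a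
library theorem which was never handed in. Degree four at `ℓ₀` gives the full Lie algebra of the image at `ℓ₀`; Chebotarev's
theorem and Krasner's lemma give places whose Frobenius elements are close to a generic element of
the Lie algebra, and so Frobenius polynomials with strong properties; these give the full Lie algebra
of the image at other prime numbers. New here: the case of the field of
rational numbers in (b), and the formulation with rational classes. A
stable subspace of `V i ℓ` which meets its orthogonal complement gives a stable isotropic subspace,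
whose determinant is, up to a finite order character, half of the expected power of the cyclotomic
character (`ℓ`-adic six exponentials theorem and theorem of Kronecker and Weber, for a Tate twist of
positive weight); this gives a relation between Frobenius eigenvalues which contradicts the
size of the image at `ℓ₀`. The Lie algebra of the image of a Tate twist at `ℓ₀` still contains the Lie
algebra of the form, because the latter is spanned by brackets.
-/

set_option autoImplicit false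

namespace Pool.Agent.Results.MP_3703a7_ag.FromOnePrime

open Matrix Polynomial Filter Topology NumberField IsDedekindDomain

/-- the absolute Galois group, with the profinite (Krull) topology -/
abbrev AbsoluteGaloisGroup (K : Type) [Field K] : Type := Gal(AlgebraicClosure K/K)

/-- `σ` is a Frobenius element at the prime `v` of `K`: there is a maximal ideal `Q` above `v` of the
ring of all algebraic integers with `σ x ≡ x ^ N(v)` modulo `Q` for all `x` -/
def IsFrobenius {K : Type} [Field K] [NumberField K] (v : HeightOneSpectrum (𝓞 K))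
    (σ : AbsoluteGaloisGroup K) : Prop :=
  ∃ Q : Ideal (𝓞 (AlgebraicClosure K)), Q.IsMaximal ∧
    Q.comap (algebraMap (𝓞 K) (𝓞 (AlgebraicClosure K))) = v.asIdeal ∧
    ∀ x : 𝓞 (AlgebraicClosure K), σ • x - x ^ Ideal.absNorm v.asIdeal ∈ Q

/-- the rational matrix as an `ℓ`-adic matrix -/
noncomputable abbrev adic (ℓ : ℕ) [Fact ℓ.Prime] {n : ℕ} (J : Matrix (Fin n) (Fin n) ℚ) :
    Matrix (Fin n) (Fin n) ℚ_[ℓ] :=
  J.map (algebraMap ℚ ℚ_[ℓ])

/-- nondegenerate forms: alternating, or symmetric of odd rank at least `5`, or symmetric of even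
rank at least `8` -/
def IsForm {n : ℕ} (J : Matrix (Fin n) (Fin n) ℚ) : Prop :=
  J.det ≠ 0 ∧ 0 < n ∧ (Jᵀ = -J ∨ Jᵀ = J ∧ (Odd n ∧ 5 ≤ n ∨ Even n ∧ 8 ≤ n))

/-- the prime number `ℓ` is suitable for the form (almost all prime numbers are) -/
def IsSuitable (ℓ : ℕ) [Fact ℓ.Prime] {n : ℕ} (J : Matrix (Fin n) (Fin n) ℚ) : Prop :=
  (Jᵀ = -J → ℓ ≠ 2) ∧ (Jᵀ = J → Odd n → ¬ ℓ ∣ n - 1) ∧
    (Jᵀ = J → Even n → ¬ ℓ ∣ (n - 2) * (n - 4) ∧ Even (Padic.valuation (adic ℓ J).det))

/-- The `ℓ`-adic realizations, for all prime numbers `ℓ`, of motives of rank `N i` and weight `w i` over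
the number field `K`, with polarization `J i`, good reduction outside of the finite set `S` of places and
Frobenius polynomials `P i v`; `κ ℓ` is the inverse of the cyclotomic character. -/
structure IsSystem {K : Type} [Field K] [NumberField K] {ι : Type} {N w : ι → ℕ}
    (S : Set (HeightOneSpectrum (𝓞 K))) (P : ι → HeightOneSpectrum (𝓞 K) → ℚ[X])
    (J : ∀ i, Matrix (Fin (N i)) (Fin (N i)) ℚ)
    (κ : ∀ (ℓ : ℕ) [Fact ℓ.Prime], AbsoluteGaloisGroup K →* ℚ_[ℓ])
    (ρ : ∀ (i : ι) (ℓ : ℕ) [Fact ℓ.Prime],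
      AbsoluteGaloisGroup K →* Matrix (Fin (N i)) (Fin (N i)) ℚ_[ℓ]) : Prop where
  finite : S.Finite
  form : ∀ i, IsForm (J i)
  weight : ∀ i, (J i)ᵀ = J i → w i = 0
  continuous_char : ∀ (ℓ : ℕ) [Fact ℓ.Prime], Continuous (κ ℓ)
  char_frobenius : ∀ (ℓ : ℕ) [Fact ℓ.Prime], ∀ v ∉ S, (ℓ : 𝓞 K) ∉ v.asIdeal →
    ∀ σ : AbsoluteGaloisGroup K, IsFrobenius v σ → κ ℓ σ⁻¹ = (Ideal.absNorm v.asIdeal : ℚ_[ℓ])
  continuous : ∀ (i : ι) (ℓ : ℕ) [Fact ℓ.Prime], Continuous (ρ i ℓ)
  similitude : ∀ (i : ι) (ℓ : ℕ) [Fact ℓ.Prime] (g : AbsoluteGaloisGroup K),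
    (ρ i ℓ g)ᵀ * adic ℓ (J i) * ρ i ℓ g = κ ℓ g ^ w i • adic ℓ (J i)
  frobenius : ∀ (i : ι) (ℓ : ℕ) [Fact ℓ.Prime], ∀ v ∉ S, (ℓ : 𝓞 K) ∉ v.asIdeal →
    ∀ σ : AbsoluteGaloisGroup K, IsFrobenius v σ →
      (ρ i ℓ σ⁻¹).charpoly = (P i v).map (algebraMap ℚ ℚ_[ℓ])

/-- the value of the multilinear form with the coefficients `T` -/
def value {F : Type} [Field F] {k : ℕ} {n : Fin k → ℕ} (T : (∀ t, Fin (n t)) → F)
    (v : ∀ t, Fin (n t) → F) : F :=
  ∑ r, T r * ∏ t, v t (r t)

/-- the multilinear form on the tensor word `a` is a Tate class: an open subgroup of the Galois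
group multiplies it by `κ ^ j` -/
def IsTate {K : Type} [Field K] {ι : Type} {N : ι → ℕ} (ℓ : ℕ) [Fact ℓ.Prime]
    (ρ : ∀ i, AbsoluteGaloisGroup K →* Matrix (Fin (N i)) (Fin (N i)) ℚ_[ℓ])
    (κ : AbsoluteGaloisGroup K →* ℚ_[ℓ]) {k : ℕ} (a : Fin k → ι) (j : ℕ)
    (T : (∀ t, Fin (N (a t))) → ℚ_[ℓ]) : Prop :=
  ∃ U : Subgroup (AbsoluteGaloisGroup K), IsOpen (U : Set (AbsoluteGaloisGroup K)) ∧
    ∀ σ ∈ U, ∀ v : ∀ t, Fin (N (a t)) → ℚ_[ℓ],
      value T (fun t => ρ (a t) σ *ᵥ v t) = κ σ ^ j * value T v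

/-- the multilinear form with rational coefficients on the tensor word `a` is killed by the product of
the Lie algebras of the forms -/
def IsRationalInvariant {ι : Type} {N : ι → ℕ} (J : ∀ i, Matrix (Fin (N i)) (Fin (N i)) ℚ) {k : ℕ}
    (a : Fin k → ι) (T : (∀ t, Fin (N (a t))) → ℚ) : Prop :=
  ∀ X : ∀ i, Matrix (Fin (N i)) (Fin (N i)) ℚ, (∀ i, (X i)ᵀ * J i + J i * X i = 0) →
    ∀ v : ∀ t, Fin (N (a t)) → ℚ, ∑ t, value T (Function.update v t (X (a t) *ᵥ v t)) = 0

/-- the classes with `ℓ`-adic coefficients which are combinations of the rational invariants -/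
noncomputable def span {ι : Type} {N : ι → ℕ} (J : ∀ i, Matrix (Fin (N i)) (Fin (N i)) ℚ) (ℓ : ℕ)
    [Fact ℓ.Prime] {k : ℕ} (a : Fin k → ι) :
    Submodule ℚ_[ℓ] ((∀ t, Fin (N (a t))) → ℚ_[ℓ]) :=
  Submodule.span ℚ_[ℓ] {T | ∃ T₀ : (∀ t, Fin (N (a t))) → ℚ, IsRationalInvariant J a T₀ ∧
    T = fun r => (T₀ r : ℚ_[ℓ])}

/-- the Tate conjecture at `ℓ` for all tensor words (of even weight `2 j`) -/
def TateAt {K : Type} [Field K] {ι : Type} {N : ι → ℕ} (w : ι → ℕ)
    (J : ∀ i, Matrix (Fin (N i)) (Fin (N i)) ℚ) (ℓ : ℕ) [Fact ℓ.Prime]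
    (ρ : ∀ i, AbsoluteGaloisGroup K →* Matrix (Fin (N i)) (Fin (N i)) ℚ_[ℓ])
    (κ : AbsoluteGaloisGroup K →* ℚ_[ℓ]) : Prop :=
  ∀ (k : ℕ) (a : Fin k → ι) (j : ℕ), ∑ t, w (a t) = 2 * j →
    ∀ T, IsTate ℓ ρ κ a j T ↔ T ∈ span J ℓ a

/-- the Tate conjecture at `ℓ` for the endomorphisms of the motives -/
def EndTateAt {K : Type} [Field K] {ι : Type} {N : ι → ℕ} (w : ι → ℕ)
    (J : ∀ i, Matrix (Fin (N i)) (Fin (N i)) ℚ) (ℓ : ℕ) [Fact ℓ.Prime]
    (ρ : ∀ i, AbsoluteGaloisGroup K →* Matrix (Fin (N i)) (Fin (N i)) ℚ_[ℓ])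
    (κ : AbsoluteGaloisGroup K →* ℚ_[ℓ]) : Prop :=
  ∀ a : Fin 2 → ι, a 0 = a 1 → ∀ j, ∑ t, w (a t) = 2 * j →
    ∀ T, IsTate ℓ ρ κ a j T → T ∈ span J ℓ a

/-- the Tate conjecture at `ℓ` for the words `M i ⊗ M i ⊗ M j ⊗ M j` -/
def DegreeFourTateAt {K : Type} [Field K] {ι : Type} {N : ι → ℕ} (w : ι → ℕ)
    (J : ∀ i, Matrix (Fin (N i)) (Fin (N i)) ℚ) (ℓ : ℕ) [Fact ℓ.Prime]
    (ρ : ∀ i, AbsoluteGaloisGroup K →* Matrix (Fin (N i)) (Fin (N i)) ℚ_[ℓ])
    (κ : AbsoluteGaloisGroup K →* ℚ_[ℓ]) : Prop :=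
  ∀ a : Fin 4 → ι, a 0 = a 1 → a 2 = a 3 → ∀ j, ∑ t, w (a t) = 2 * j →
    ∀ T, IsTate ℓ ρ κ a j T → T ∈ span J ℓ a

/-- every stable subspace has a stable complement -/
def IsSemisimple {F G V : Type} [Field F] [Group G] [AddCommGroup V] [Module F V]
    (act : G → V → V) : Prop :=
  ∀ W : Submodule F V, (∀ g, ∀ x ∈ W, act g x ∈ W) →
    ∃ W' : Submodule F V, IsCompl W W' ∧ ∀ g, ∀ x ∈ W', act g x ∈ W'

/-- a set of prime numbers has natural density zero -/
def DensityZero (A : Set ℕ) : Prop :=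
  Tendsto (fun n : ℕ => (Nat.card {ℓ : ℕ // ℓ ≤ n ∧ ℓ ∈ A} : ℝ) / (Nat.primeCounting n : ℝ))
    atTop (𝓝 0)

/-- the motives are pure, and multiples of the Frobenius eigenvalues by powers of `N v` are
integral -/
def IsPureIntegral {K : Type} [Field K] [NumberField K] {ι : Type} (w : ι → ℕ)
    (S : Set (HeightOneSpectrum (𝓞 K))) (P : ι → HeightOneSpectrum (𝓞 K) → ℚ[X]) : Prop :=
  ∀ i, ∃ m : ℕ, 0 < w i + 2 * m ∧ ∀ v ∉ S,
    (∃ R : ℤ[X], R.map (algebraMap ℤ ℚ) =
      (P i v).scaleRoots ((Ideal.absNorm v.asIdeal : ℚ) ^ m)) ∧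
    ∀ z : ℂ, aeval z (P i v) = 0 → ‖z‖ ^ 2 = (Ideal.absNorm v.asIdeal : ℝ) ^ w i

theorem mem_span_iff {ι : Type} {N : ι → ℕ} (J : ∀ i, Matrix (Fin (N i)) (Fin (N i)) ℚ) (ℓ : ℕ)
    [Fact ℓ.Prime] {k : ℕ} (a : Fin k → ι) (T : (∀ t, Fin (N (a t))) → ℚ_[ℓ]) :
    Pool.Agent.R932.PO.Killed (Pool.Agent.R932.PO.JL J ℓ) a T ↔ T ∈ span J ℓ a :=
  Pool.Agent.R932.PO.killed_span

theorem result {K : Type} [Field K] [NumberField K] {ι : Type} [Fintype ι] {N w : ι → ℕ}
    (S : Set (HeightOneSpectrum (𝓞 K))) (P : ι → HeightOneSpectrum (𝓞 K) → ℚ[X])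
    (J : ∀ i, Matrix (Fin (N i)) (Fin (N i)) ℚ)
    (κ : ∀ (ℓ : ℕ) [Fact ℓ.Prime], AbsoluteGaloisGroup K →* ℚ_[ℓ])
    (ρ : ∀ (i : ι) (ℓ : ℕ) [Fact ℓ.Prime],
      AbsoluteGaloisGroup K →* Matrix (Fin (N i)) (Fin (N i)) ℚ_[ℓ])
    (h : IsSystem (w := w) S P J κ ρ)
    -- the hypotheses at one prime number
    (ℓ₀ : ℕ) [Fact ℓ₀.Prime] (hsuit : ∀ i, IsSuitable ℓ₀ (J i))
    (hfour : DegreeFourTateAt w J ℓ₀ (fun i => ρ i ℓ₀) (κ ℓ₀))
    (hsemi : ∀ i, IsSemisimple (F := ℚ_[ℓ₀]) (V := Matrix (Fin (N i)) (Fin (N i)) ℚ_[ℓ₀])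
      fun (g : AbsoluteGaloisGroup K) A => ρ i ℓ₀ g * A * ρ i ℓ₀ g⁻¹)
    (hscalar : ∀ i, ∃ v ∉ S, (ℓ₀ : 𝓞 K) ∉ v.asIdeal ∧ ∀ n : ℕ, 0 < n →
      ∃ x : ℂ, aeval x (P i v) = 0 ∧
        x ^ (2 * n) ≠ ((Ideal.absNorm v.asIdeal : ℂ) ^ w i) ^ n) :
    -- (a) at 100 percent of the prime numbers
    DensityZero {ℓ | ∃ _ : Fact ℓ.Prime, ¬ TateAt w J ℓ (fun i => ρ i ℓ) (κ ℓ)} ∧
    -- (b) at every prime number
    ∀ (ℓ : ℕ) [Fact ℓ.Prime],
      ((∀ i, IsSemisimple (F := ℚ_[ℓ]) (V := Fin (N i) → ℚ_[ℓ])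
        fun (g : AbsoluteGaloisGroup K) x => ρ i ℓ g *ᵥ x) ∨
        (Module.finrank ℚ K = 1 ∧ IsPureIntegral w S P)) →
      (TateAt w J ℓ (fun i => ρ i ℓ) (κ ℓ) ↔ EndTateAt w J ℓ (fun i => ρ i ℓ) (κ ℓ)) := by
  classical
  have hkd : ∀ i, ∃ kd : Pool.Agent.R932.PO.Kind, Pool.Agent.R932.PO.Fits kd (J i) ∧
      Pool.Agent.R932.PO.Allows kd (N i) ℓ₀ (Pool.Agent.R932.PO.JL J ℓ₀ i) := by
    intro i
    obtain ⟨-, hn, hJ | ⟨hJ, ⟨ho, h5⟩ | ⟨he, h8⟩⟩⟩ := h.form i
    · exact ⟨.sym, ⟨hJ, hn⟩, (hsuit i).1 hJ⟩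
    · exact ⟨.odd, ⟨hJ, ho, h5⟩, (hsuit i).2.1 hJ ho⟩
    · exact ⟨.even, ⟨hJ, he, h8⟩, (hsuit i).2.2 hJ he⟩
  choose kd hfit hal using hkd
  have hend : ∀ (ℓ : ℕ) [Fact ℓ.Prime], TateAt w J ℓ (fun i => ρ i ℓ) (κ ℓ) →
      EndTateAt w J ℓ (fun i => ρ i ℓ) (κ ℓ) := fun ℓ _ hT a _ j hj T => (hT 2 a j hj T).1
  have hT4 : ∀ a : Fin 4 → ι, a 0 = a 1 → a 2 = a 3 → ∀ j, ∑ t, w (a t) = 2 * j → ∀ T,
      Pool.Agent.R932.PO.IsTate (fun i => ρ i ℓ₀) (κ ℓ₀) a j T →
      Pool.Agent.R932.PO.Killed (Pool.Agent.R932.PO.JL J ℓ₀) a T :=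
    fun a h1 h2 j hj T hT => (mem_span_iff J ℓ₀ a T).2 (hfour a h1 h2 j hj T hT)
  have hns : ∀ i, ∃ v ∉ S, (ℓ₀ : 𝓞 K) ∉ v.asIdeal ∧ ∀ n : ℕ, 0 < n →
      ∃ x : ℂ, aeval x (P i v) = 0 ∧
        x ^ (2 * n) ≠ (((Ideal.absNorm v.asIdeal : ℚ) ^ w i : ℚ) : ℂ) ^ n := by
    intro i
    obtain ⟨v, hv, hvl, h1⟩ := hscalar i
    refine ⟨v, hv, hvl, fun n hn => ?_⟩
    obtain ⟨x, hx, hne⟩ := h1 n hn
    refine ⟨x, hx, ?_⟩
    push_cast
    exact hne
  have hmain := Pool.Agent.R932.PO.final_mt h.finite J hfit (fun i => (h.form i).1) h.weight κ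
    (fun ℓ _ => h.continuous_char ℓ) (fun ℓ _ => h.char_frobenius ℓ) ρ
    (fun i ℓ _ => h.continuous i ℓ) (fun i ℓ _ => h.similitude i ℓ)
    (fun i ℓ _ => h.frobenius i ℓ) ℓ₀ hal hT4 hsemi hns
  refine ⟨?_, ?_⟩
  · refine Pool.Agent.Y142.ZI.DensityZero.mono hmain.1 ?_
    rintro ℓ ⟨hp, hno⟩
    refine ⟨hp, fun hall => hno fun k a j hj T => ?_⟩
    exact (hall k a j hj T).trans (mem_span_iff J ℓ a T)
  · rintro ℓ _ (hss | ⟨hK, hpi⟩)
    · refine ⟨hend ℓ, fun hE k a j hj T => ?_⟩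
      refine (hmain.2 ℓ hss ?_ k a j hj T).trans (mem_span_iff J ℓ a T)
      intro a h1 j hj T hT
      exact (mem_span_iff J ℓ a T).2 (hE a h1 j hj T hT)
    · refine ⟨hend ℓ, fun hE k a j hj T => ?_⟩
      choose m hm hpi using hpi
      refine (Pool.Agent.N536.OP.words_every h.finite J hfit (fun i => (h.form i).1) h.weight κ
        (fun ℓ _ => h.continuous_char ℓ) (fun ℓ _ => h.char_frobenius ℓ) ρ
        (fun i ℓ _ => h.continuous i ℓ) (fun i ℓ _ => h.similitude i ℓ)
        (fun i ℓ _ => h.frobenius i ℓ) ℓ₀ hal hT4 hsemi hns hK m hm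
        (fun i v hv => (hpi i v hv).1) (fun i v hv => (hpi i v hv).2) ℓ ?_ k a j hj T).trans
        (mem_span_iff J ℓ a T)
      intro a h1 j hj T hT
      exact (mem_span_iff J ℓ a T).2 (hE a h1 j hj T hT)

end Pool.Agent.Results.MP_3703a7_ag.FromOnePrime
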