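import Pool.Agent.N203.TA.Main

/-!
# Tate tensors at all primes from the rank at one prime, for motives of type A

Let `M` be a direct sum of pure motives `M i`, of weight `w i`, over `ℚ`, or over a finitely generated
field `k` of characteristic zero with a rational point `s` of a model over which `M` extends; `Γ` is
the absolute Galois group of `ℚ`, or the fundamental group of the model, and `ρ ℓ` is the action of
`Γ` on the `ℓ`-adic realization.  Let `𝔤` be the Lie algebra (over `ℚ`, in the Betti realization) of the
motivic Galois group of `M` over an algebraically closed field (for motivated or algebraic cycles;
for algebraic cycles one has to assume that it exists and is reductive), and let `r` be its rank.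

The Tate conjecture says that all `ℓ`-adic tensors which are fixed by a subgroup of finite index of `Γ`
(Tate tensors) are combinations of motivated tensors, that is, they are killed by `𝔤 ⊗ ℚ_ℓ`, for
all `ℓ`.

**Theorem.**  Suppose that for ONE prime number `ℓ₀` the elements of the Galois group of `ℚ` which
have `r` multiplicatively independent eigenvalues in the `ℓ₀`-adic realization (at `s`) exist and
generate a dense subgroup.  (For example this is the case if the `ℓ₀`-adic monodromy group is
connected and has the rank `r`: almost all elements have this property.)  Then for EVERY prime number
`ℓ`, see `AtPrime`:

* `ρ ℓ` is semisimple over all finite extensions of the ground field;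
* the Lie algebra `𝔥` of all endomorphisms which kill the Tate tensors is a reductive subalgebra of
  `𝔤 ⊗ ℚ_ℓ` of maximal rank, and its centre consists of multiples of the weight operator (the operator
  which acts by `w i` on `M i`);
* `𝔥` contains `𝔞 ⊗ ℚ_ℓ` for all subspaces (for example ideals) `𝔞` of `𝔤` such that `𝔞 ⊗ ℂ` is contained
  in the part of type A of `𝔤 ⊗ ℂ`: the sum of the centre and of all ideals isomorphic to special
  linear Lie algebras;
* in particular, if `𝔤` is of type A (for example if all `M i` are of dimension 2 or 3), then the Tate
  conjecture is true at `ℓ` for all tensor constructions from `M`: all Tate tensors are motivated.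

There is no hypothesis on endomorphisms (compare the earlier result `RankAndEndomorphisms` for the
problem `MP_b8862a_ag`, where the Tate endomorphisms are supposed to be motivated), no hypothesis on the
semisimplicity, and at `ℓ₀` only the rank is known, and not the type, of the monodromy group.

Proof.  By the `ℓ`-adic six exponentials theorem, and because the sizes of relations between Weil
numbers of bounded degree are bounded, `ρ ℓ` is semisimple and `𝔥` contains a maximal torus `t` of
`𝔤 ⊗ ℂ` (libraries `Pool.Agent.Y114` and `Pool.Agent.R931`).  New are the following two steps.

1. (`central_comm`, `central_weight`.)  Let `z` be a central element of `𝔥`.  It is contained in the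
   torus of every Frobenius element of maximal rank, so it commutes with it, and by the density of
   these elements `z` commutes with the Galois group.  Let `e` be the projector to an eigenspace of
   `z ⊗ ℂ`, or rather over a finite extension `E` of `ℚ_ℓ`.  Then `det (e σ + 1 - e)` is a character
   of the Galois group of `ℚ` with values in `E`, whose values at the Frobenius elements are algebraic
   numbers; by the six exponentials theorem and the theorem of Kronecker and Weber, it is of finite
   order up to the product with a rational power of the cyclotomic character.  Therefore the pairing
   of `z` with the torus of a Frobenius element is a multiple of the pairing of the weight operator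
   with this torus, and because the trace form is nondegenerate on the torus, `z` is a multiple of
   the weight operator.
2. (`Factor.le`.)  A reductive subalgebra of maximal rank whose centre is central in `𝔤 ⊗ ℂ` contains
   all ideals isomorphic to special linear Lie algebras: otherwise the roots of the intersection
   define a decomposition of the index set of the diagonal matrices, and the projector to one part
   (minus a scalar matrix) would be a new central element.
-/

set_option autoImplicit false

namespace Pool.Agent.Results.MP_3703a7_ag.TypeAAllPrimes

open NumberField IsDedekindDomain Pool.Agent.Y114.RM Pool.Agent.Y114.GF Pool.Agent.R931.IR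
  Pool.Agent.N203.RE Pool.Agent.N203.TA

theorem result {Γ : Type} [Group Γ] [TopologicalSpace Γ] [IsTopologicalGroup Γ] [CompactSpace Γ]
    {ι : Type} [Fintype ι] [DecidableEq ι] {n : ι → ℕ}
    -- the weights and the rational point; the places of good reduction with their Frobenius
    -- polynomials; the `ℓ`-adic realizations, and the Lie algebra of the motivic Galois group
    (w : ι → ℤ) (s : Gal(AlgebraicClosure ℚ/ℚ) →* Γ) (S : Set (HeightOneSpectrum (𝓞 ℚ)))
    (P : HeightOneSpectrum (𝓞 ℚ) → ι → Polynomial ℚ)
    (ρ : ∀ (ℓ : ℕ) [Fact ℓ.Prime], Reps Γ n ℓ) (𝔤 : Submodule ℚ (Module.End ℚ (Betti n)))
    (hM : Realizations s w S P ρ 𝔤) (c : ℕ) (hc : IntegralOutside S P c)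
    -- the rank of `𝔤` is at most `r`
    (r : ℕ) (hr : RatRankLE 𝔤 r)
    -- one prime number `ℓ₀`, where the elements with `r` independent eigenvalues generate
    (ℓ₀ : ℕ) [Fact ℓ₀.Prime] (h₀ : FullElementsGenerate s (ρ ℓ₀) r)
    -- every prime number `ℓ`
    (ℓ : ℕ) [Fact ℓ.Prime] :
    AtPrime w (ρ ℓ) 𝔤 r :=
  main hM c hc r hr ℓ₀ h₀ ℓ

end Pool.Agent.Results.MP_3703a7_ag.TypeAAllPrimes
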