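import Mathlib
import Pool.Agent.N204.ZL.Lat

/-!
# A zero-one law for the Tate conjecture: from one prime number to 100 percent of the prime numbers

Let `M` be a pure motive over a number field `K`, or over a finitely generated field `k` of characteristic
zero, with the `ℓ`-adic realizations `ρ ℓ`, of dimension `N`, for all prime numbers `ℓ`.  `Γ` is the Galois group
of `K` (or the fundamental group of a model of `k` over a number field `K`, and `s` is given by a `K`-rational
point).  Outside of a finite set `S` of places `v` the motive has good reduction (along the point), with
Frobenius polynomials `P v` independent of `ℓ`, and `(q v) ^ c` times a Frobenius eigenvalue is an algebraic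
integer.  `𝔤 ℓ` is the Lie algebra of the motivic Galois group of `M`, over `ℚ_ℓ`.  What is used of it is
contained in the definition `Motivic` (`IsMotivic`): it is a Lie algebra of endomorphisms with nondegenerate
trace form, whose representation is semisimple, which contains every endomorphism that kills all tensors
killed by `𝔤 ℓ`, and the tensors killed by `𝔤 ℓ` (the classes of algebraic, or motivated, cycles) are Tate
tensors, that is, fixed by a subgroup of finite index of `Γ`.  Its rank is at most `r`, and the dimension of
its commutant (the endomorphisms of the motive over finite extensions) is at least `m`.

The *relations* between numbers `z_1, ..., z_N` are the vectors `n` of integers such that the product of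
the `z_i ^ {n_i}` is a root of unity.  Let `R` be a set of vectors which has rank at most `N - r`
(the relations between the Frobenius eigenvalues at a place of maximal rank, that is, the relations between the
weights of the motivic group), and let `A` be the group of permutations of `{1, ..., N}` which preserve
`R`.  An element `γ` of the image of the Galois group at a prime `p` has the *type* `a` (with respect to
`p` and to an automorphism `τ` of the algebraic closure of `ℚ_p`) if the eigenvalues of `ρ_p(γ)` can be written
as `z_1, ..., z_N` with relations `R` and `τ (z_i) = z_{a(i)}` (no quotient of two of them being a root of
unity).  In the same way we define the types of the elements of the Lie algebra of the image, with the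
linear relations between the eigenvalues.  For a group `H` of permutations let `Λ_H` be the lattice which is
generated by `R` and by the vectors `e_i - e_{a(i)}`, `a` in `H`.

**Theorem.**  Let `T j` (for `j` in any index set) be sets of types which occur at primes `p j` for
automorphisms `τ j`.  Suppose that the following condition on finite permutation groups is satisfied: if `M` is
a normal subgroup of a subgroup `G` of `A` such that the elements of `T j` are, for every `j`, conjugate in `A`
to elements of a coset of `M` in `G`, and if `H` is a subgroup of `A` with an element `y` of the normalizer of `H`
in `A` such that all elements of some coset `M * g` (`g` in `G`) are conjugate in `A` to elements of `H * y`,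
then `Λ_H` contains `e_i - e_{b(i)}` for all elements `b` of all groups `B` of permutations which contain `H` and
have at least `m` orbits (`LatticeFull`; for example, `H` has at most `m` orbits).

Then for all prime numbers `ℓ` outside of a set of natural density zero the Tate conjecture holds for all
motives in the tensor category generated by `M`, over all finite extensions of the base field: the
representation `ρ ℓ` is semisimple (over all finite extensions), and the Tate tensors, in all tensor
powers of the realization and of its dual, are exactly the tensors which are killed by `𝔤 ℓ`.  In other words
`Hom(M₁, M₂) ⊗ ℚ_ℓ → Hom_G(M₁_ℓ, M₂_ℓ)` is bijective for all these motives `M₁`, `M₂` at the same time.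

The condition is satisfied, for example, if `A = W * Z` with a central subgroup `Z`, the types at one prime `p`
and one `τ` contain `1` and a set which generates `W` invariably, and `W` satisfies the condition on the
lattice (see `forces_of_central` and `latticeFull_mono`).  This is the case if the image of the Galois group
at ONE prime `p` is open in the motivic Galois group, whose identity component is split over `ℚ_p` and, up
to homotheties, one of the following groups with one of the following representations: `Sp_N` or `SO_N`
(`N = 2 n`, `n` odd) in the standard representation, a spin group of type `B`, a half-spin group of type `D_n`,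
`n ≥ 5`, `G_2` in dimension `7`, `E_7` in dimension `56`; or `SL_n` (`n ≥ 3`) or `E_6` in the sum of the
standard representation (of dimension `27` for `E_6`) and its dual, with the action of an imaginary quadratic
field (`m = 2`).  So for such motives the Tate conjecture at one prime number implies the Tate conjecture at
100 percent of the prime numbers; and the types at one prime can be found by computing finitely many
Frobenius polynomials.  Only the weights of the representation have to be of multiplicity one; it may be
reducible, and nothing is assumed about the representations at the other prime numbers (no semisimplicity,
no irreducibility) and about polarizations.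

Idea of the proof.  Call a place good if no quotient of two Frobenius eigenvalues is a root of unity and
if there are `r` multiplicatively independent ones.
(1) Given types at finitely many primes `p_j`, there is a good place `v` whose Frobenius eigenvalues have, for
suitable orderings, the same relations, and the same action of the Galois group of `ℚ_{p_j}`, for all `j`.
(2) Let `F` be the intersection of the splitting fields of the `P v` for all good `v`.  By an argument with
extensions of `F` which are independent over `F`, and Chebotarev's theorem, for all `ℓ` outside of a set of
density zero all elements of a coset `M * g` occur at good places as the action of a fixed Frobenius element of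
the Galois group of `ℚ_ℓ` on the eigenvalues.
(3) Let `U` be a subspace of the realization, over the algebraic closure of `ℚ_ℓ`, which is stable under an open
subgroup.  At every good place, `U` determines a set of Frobenius eigenvalues.  For two good places consider
the pencil of tangent vectors which is spanned by the logarithms of the Frobenius elements: its members have
at most `r` independent eigenvalues, so there is a bijection between the two sets of eigenvalues which
preserves the relations and the sets determined by all `U` at the same time.  The Frobenius element of
`ℚ_ℓ` permutes the subspaces `U`; so we obtain a group `H` which preserves the sets of all `U`, and a coset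
`H * y` which contains conjugates of all elements of `M * g`.
(4) Let `L ≤ 𝔤 ℓ` be the Lie algebra of the endomorphisms which are tangent to the image in the Zariski
topology; it contains a maximal torus of `𝔤 ℓ`, the hull of the logarithm of a Frobenius element.  If `L` is not
reductive, the sum of the weights of `L` on its unipotent radical is dual, with respect to the trace form,
to an element `d` of the torus at which the roots are real, and the eigenvectors whose eigenvalues exceed a
given one by a nonnegative number span a subspace which is stable under `L`; so the eigenvalues of `d` are
constant on the orbits of `H`, all roots of `𝔤 ℓ` vanish at `d` by the lattice condition, a contradiction.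
So `L` is reductive.  The weights of an `L`-stable subspace spanned by the weights which are congruent modulo
the root lattice of `L` show that `Λ_H` is contained in the root lattice of `L` (modulo `R`), which therefore
contains all roots of `𝔤 ℓ`; as the set of the roots of `L` is closed, `L = 𝔤 ℓ`.
-/

set_option autoImplicit false

namespace Pool.Agent.Results.MP_3703a7_ag.ZeroOneLaw

open NumberField IsDedekindDomain Polynomial Module Pool.Agent.Y114.TF Pool.Agent.Y114.GF
  Pool.Agent.Y114.MU Pool.Agent.Y114.RM Pool.Agent.R931.GD Pool.Agent.R931.ZL Pool.Agent.R931.ZM
  Pool.Agent.R931.PD Pool.Agent.R931.ZF Pool.Agent.R931.ZG

theorem result (K : Type) [Field K] [NumberField K] (Γ : Type) [Group Γ] [TopologicalSpace Γ]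
    [IsTopologicalGroup Γ] [CompactSpace Γ] (s : Gal(AlgebraicClosure K/K) →* Γ)
    (hs : Continuous s)
    -- the `ℓ`-adic realizations
    (N : ℕ) (hN : 0 < N)
    (ρ : ∀ (ℓ : ℕ) [Fact ℓ.Prime], Rep1 Γ N ℓ) (hρ : ∀ (ℓ : ℕ) [Fact ℓ.Prime], Conts (ρ ℓ))
    -- good reduction outside of a finite set of places
    (wt : ℤ) (c : ℕ) (S : Set (HeightOneSpectrum (𝓞 K))) (hS : S.Finite)
    (P : HeightOneSpectrum (𝓞 K) → ℚ[X])
    (hP : ∀ (ℓ : ℕ) [Fact ℓ.Prime], ∀ v ∉ S, ¬ Above v ℓ →
      GoodReduction (restrictTo (ρ ℓ) s) () wt v (P v))
    (hint : ∀ v ∉ S, IntegralAt c v (P v))
    -- the Lie algebra of the motivic Galois group, of rank at most `r`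
    (𝔤 : ∀ (ℓ : ℕ) [Fact ℓ.Prime], End1 N ℓ)
    (hmot : ∀ (ℓ : ℕ) [Fact ℓ.Prime], Motivic (ρ ℓ) (𝔤 ℓ))
    (r : ℕ) (hrank : ∀ (ℓ : ℕ) [Fact ℓ.Prime], RankLE (𝔤 ℓ) r)
    -- the dimension of its commutant is at least `m`
    (m : ℕ) (hend : ∀ (ℓ : ℕ) [Fact ℓ.Prime], m ≤ commutantDim (𝔤 ℓ))
    -- the relations between the weights, and their automorphism group
    (R : Set (Fin N → ℤ)) (hR : RankGE r R)
    -- the types at some prime numbers
    (J : Type) (T : J → Set (Equiv.Perm (Fin N))) (hne : ∃ j, (T j).Nonempty)
    (p : J → ℕ) [∀ j, Fact (p j).Prime] (τ : ∀ j, Gal(PadicAlgCl (p j)/ℚ_[p j]))
    (htypes : ∀ j, ∀ a ∈ T j, TypeOccurs s (ρ (p j)) R (τ j) a)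
    -- the condition on permutation groups
    (hT : Forces (relAut R) T (LatticeFull R m)) :
    HasDensityZero {ℓ | ∃ _ : Fact ℓ.Prime,
      ¬ (Semisimple (ρ ℓ) ∧ TateTensorsOf (ρ ℓ) (𝔤 ℓ))} :=
  Pool.Agent.N204.ZL.lattice_law (K := K) (Γ := Γ) (s := s) (N := N) (wt := wt) (c := c) (r := r)
    (S := S) (P := P) (ρ := ρ) (𝔤 := 𝔤) ⟨hN, hs, hρ, hS, hP, hint, hmot, hrank⟩ R hR T hne p τ
    htypes m hT hend

end Pool.Agent.Results.MP_3703a7_ag.ZeroOneLaw
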